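import Pool.Agent.H69.LQ.Lib

set_option autoImplicit false

open MeasureTheory Metric Set
open scoped ENNReal
open Pool.Agent.H85.LK (E adm lam Ann)
open Pool.Agent.H69.LQ

namespace Pool.Agent.H34.LQ

theorem im_norm {N : ℕ} {f g : E N → ℝ} {x : E N} (hf : DifferentiableAt ℝ f x)
    (hg : DifferentiableAt ℝ g x) :
    ‖fderiv ℝ (fun x => f x * g x) x‖ ^ 2 =
      f x ^ 2 * ‖fderiv ℝ g x‖ ^ 2 + g x ^ 2 * ‖fderiv ℝ f x‖ ^ 2 +
        2 * g x * inner ℝ (f x • (InnerProductSpace.toDual ℝ (E N)).symm (fderiv ℝ f x))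
          ((InnerProductSpace.toDual ℝ (E N)).symm (fderiv ℝ g x)) := by
  have h1 : fderiv ℝ (fun x => f x * g x) x = f x • fderiv ℝ g x + g x • fderiv ℝ f x :=
    fderiv_fun_mul hf hg
  rw [h1]
  set R := (InnerProductSpace.toDual ℝ (E N)).symm with hR
  have h2 : ‖f x • fderiv ℝ g x + g x • fderiv ℝ f x‖ =
      ‖f x • R (fderiv ℝ g x) + g x • R (fderiv ℝ f x)‖ := by
    rw [← R.norm_map (f x • fderiv ℝ g x + g x • fderiv ℝ f x), map_add, map_smulₛₗ, map_smulₛₗ]
    rfl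
  rw [h2, norm_add_sq_real, norm_smul, norm_smul, mul_pow, mul_pow, R.norm_map, R.norm_map,
    real_inner_smul_left, real_inner_smul_right, real_inner_smul_left, Real.norm_eq_abs,
    Real.norm_eq_abs, sq_abs, sq_abs, real_inner_comm]
  ring

theorem pf_IM : T_IM := by
  intro N χ η v hχ hη hv h x
  have dχ : DifferentiableAt ℝ χ x := (hχ.differentiable (by simp)).differentiableAt
  have dη : DifferentiableAt ℝ η x := (hη.differentiable (by simp)).differentiableAt
  have dv : DifferentiableAt ℝ v x := (hv.differentiable (by simp)).differentiableAt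
  rw [im_norm dχ dv, im_norm dη dv]
  set R := (InnerProductSpace.toDual ℝ (E N)).symm with hR
  have h1 : χ x • fderiv ℝ χ x + η x • fderiv ℝ η x = 0 := by
    have h2 : fderiv ℝ (fun x => χ x ^ 2 + η x ^ 2) x = 0 := by
      have h3 : (fun x => χ x ^ 2 + η x ^ 2) = fun _ => (1 : ℝ) := funext h
      rw [h3]
      exact (hasFDerivAt_const (1 : ℝ) x).fderiv
    have h4 : HasFDerivAt (fun x => χ x ^ 2 + η x ^ 2)
        ((2 * χ x) • fderiv ℝ χ x + (2 * η x) • fderiv ℝ η x) x := by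
      have h5 := (dχ.hasFDerivAt.pow 2).add (dη.hasFDerivAt.pow 2)
      have h6 : (2 • χ x ^ (2 - 1)) • fderiv ℝ χ x + (2 • η x ^ (2 - 1)) • fderiv ℝ η x =
        (2 * χ x) • fderiv ℝ χ x + (2 * η x) • fderiv ℝ η x := by
        simp
      exact h6 ▸ h5
    rw [h4.fderiv] at h2
    have h7 : (2 : ℝ) • (χ x • fderiv ℝ χ x + η x • fderiv ℝ η x) = 0 := by
      rw [smul_add, smul_smul, smul_smul]
      exact h2
    exact (smul_eq_zero.1 h7).resolve_left (by norm_num)
  have h8 : χ x • R (fderiv ℝ χ x) + η x • R (fderiv ℝ η x) = 0 := by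
    have h9 := congrArg R h1
    rw [map_add, map_smulₛₗ, map_smulₛₗ, map_zero] at h9
    exact h9
  have h10 : inner ℝ (χ x • R (fderiv ℝ χ x)) (R (fderiv ℝ v x)) +
      inner ℝ (η x • R (fderiv ℝ η x)) (R (fderiv ℝ v x)) = 0 := by
    rw [← inner_add_left, h8, inner_zero_left]
  have h11 := h x
  linear_combination (‖fderiv ℝ v x‖ ^ 2) * h11 + 2 * v x * h10

end Pool.Agent.H34.LQ
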